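import Pool.Agent.helper4.T7.SpecQ

/-!
# t7:QEC: equidistribution in boxes, from the error pair by pair (adapted from helper14/T5/EQD)
-/

set_option autoImplicit false

namespace Pool.Agent.T7

open Finset Pool.Agent.helper3.FT Pool.Agent.T5 Pool.Agent.T6

theorem QEC_sMG (N Y Y₂ : ℝ) (hN : 0 < N) (hY : 0 < Y) (hY₂ : 0 < Y₂) :
    sM N Y Y₂ * sG N Y Y₂ = Y₂ * sN N Y Y₂ ^ 2 := by
  unfold sM sG sN
  have h1 : √Y * √Y = Y := Real.mul_self_sqrt hY.le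
  have h2 : √Y₂ * √Y₂ = Y₂ := Real.mul_self_sqrt hY₂.le
  have h3 : √N ≠ 0 := (Real.sqrt_pos.2 hN).ne'
  field_simp
  rw [pow_two, h1]

theorem QEC_alg2 (x Y Y₂ s e e' q : ℝ) :
    x * Y * (Y₂ * s) / e ^ 2 / (q * e') = Y * Y₂ * (x / (e ^ 2 * e') * s) * (1 / q) := by
  simp only [div_eq_mul_inv, mul_inv]
  ring

theorem QEC_alg (x y z B1 B2 B3 P e e' : ℝ) :
    x * y * B1 * B2 * B3 * z / (P * (e ^ 4 * e')) =
      B1 * B2 * B3 / (e ^ 2 * e') * (x * y * z / (P * e ^ 2)) := by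
  rw [div_mul_div_comm]
  congr 1 <;> ring

theorem QEC_mono {η N Y Y₂ : ℝ} (hN : 2 ≤ N) (hη0 : 0 < η) (hη : η ≤ 1 / 100)
    (h : Rg η N Y Y₂) : Rg (1 / 100) N Y Y₂ := by
  have hN1 : 1 ≤ N := by linarith
  have hN0 : 0 < N := by linarith
  have h1 : 1 < N ^ η := Real.one_lt_rpow (by linarith) hη0
  have h4 : 0 < Y * Y₂ := lt_of_lt_of_le (by positivity) h.r4
  have hY : 0 < Y := by
    by_contra hY
    push Not at hY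
    rcases hY.lt_or_eq with h5 | h5
    · have := h.r1
      have := h.r2
      nlinarith
    · rw [h5] at h4
      simp at h4
  refine ⟨h.r1, ?_, h.r3, ?_⟩
  · exact h.r2.trans (mul_le_mul_of_nonneg_right
      (Real.rpow_le_rpow_of_exponent_le hN1 hη) hY.le)
  · exact (Real.rpow_le_rpow_of_exponent_le hN1 (by linarith)).trans h.r4

theorem QEC (hCPS : CPS_stmt) (hESZ : ESZ_stmt) : QEC_stmt := by
  classical
  rintro ⟨η, hη0, hη1, hEQE⟩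
  refine ⟨η, hη0, hη1, ?_⟩
  intro a b ha0 ha1 ha4 hab e c he hec ε hε
  set B : ℝ := (b 2 - a 2) * (b 3 - a 3) * (b 4 - a 4) / ((e : ℝ) ^ 2 * (e1 e (c 0).natAbs : ℝ))
    with hB
  have hB0 : 0 ≤ B := by
    rw [hB]
    have h1 : 0 < b 2 - a 2 := by linarith [hab 2]
    have h2 : 0 < b 3 - a 3 := by linarith [hab 3]
    have h3 : 0 < b 4 - a 4 := by linarith [hab 4]
    positivity
  set ε' : ℝ := ε / 2 / (B + 1) with hε'def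
  have hε' : 0 < ε' := by positivity
  obtain ⟨C, N1, hC1, hN1⟩ := hEQE a b ha0 ha1 ha4 hab e c he hec (ε / 2) (half_pos hε)
  obtain ⟨X0, hX0⟩ := hCPS (a 0) (b 0) (a 1) (b 1) e (c 0) (c 1) ha0 (hab 0) ha1 (hab 1) he hec
    ε' hε'
  obtain ⟨N2, hN2⟩ := hESZ (max X0 1)
  refine ⟨C, max (max N1 N2) 2, hC1, fun N Y Y₂ hN hRg F hF => ?_⟩
  have hNN1 : N1 ≤ N := le_trans (le_trans (le_max_left _ _) (le_max_left _ _)) hN
  have hNN2 : N2 ≤ N := le_trans (le_trans (le_max_right _ _) (le_max_left _ _)) hN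
  have hN1' : 2 ≤ N := le_trans (le_max_right _ _) hN
  have hN0 : 0 < N := by linarith
  obtain ⟨_, hy1, hy2, hs1, hs2, _, _⟩ := hN2 N Y Y₂ hNN2 (QEC_mono hN1' hη0 hη1 hRg)
  have hYpos : 0 < Y := lt_of_lt_of_le one_pos (le_trans (le_max_right _ _) hy1)
  have hY₂pos : 0 < Y₂ := lt_of_lt_of_le one_pos (le_trans (le_max_right _ _) hy2)
  -- the finset of pairs
  set W : Finset (ℕ × ℕ) := ((range (⌊b 0 * sN N Y Y₂⌋₊ + 1)) ×ˢ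
    (range (⌊b 1 * sK N Y Y₂⌋₊ + 1))).filter (fun p : ℕ × ℕ =>
      a 0 * sN N Y Y₂ < p.1 ∧ (p.1 : ℝ) ≤ b 0 * sN N Y Y₂ ∧
      a 1 * sK N Y Y₂ < p.2 ∧ (p.2 : ℝ) ≤ b 1 * sK N Y Y₂ ∧
      Nat.Coprime p.1 p.2 ∧ (e : ℤ) ∣ (p.1 : ℤ) - c 0 ∧ (e : ℤ) ∣ (p.2 : ℤ) - c 1) with hW
  have hWm : ∀ p, p ∈ W ↔ (a 0 * sN N Y Y₂ < p.1 ∧ (p.1 : ℝ) ≤ b 0 * sN N Y Y₂ ∧
      a 1 * sK N Y Y₂ < p.2 ∧ (p.2 : ℝ) ≤ b 1 * sK N Y Y₂ ∧
      Nat.Coprime p.1 p.2 ∧ (e : ℤ) ∣ (p.1 : ℤ) - c 0 ∧ (e : ℤ) ∣ (p.2 : ℤ) - c 1) := by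
    intro p
    rw [hW, Finset.mem_filter, Finset.mem_product, Finset.mem_range, Finset.mem_range]
    constructor
    · exact fun h => h.2
    · intro h
      refine ⟨⟨?_, ?_⟩, h⟩
      · exact Nat.lt_succ_of_le (Nat.le_floor h.2.1)
      · exact Nat.lt_succ_of_le (Nat.le_floor h.2.2.2.1)
  have hE := hN1 N Y Y₂ hNN1 hRg F W hF hWm
  have hC := hX0 (sN N Y Y₂) (sK N Y Y₂) (le_trans (le_max_left _ _) hs1)
    (le_trans (le_max_left _ _) hs2) W hWm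
  -- the cardinality
  have hcard : (F.card : ℝ) = ∑ p ∈ W, ((F.filter (fun t => t.1 = p)).card : ℝ) := by
    rw [Finset.card_eq_sum_card_fiberwise (f := fun t : Tpl => t.1) (t := W)]
    · push_cast
      rfl
    · intro t ht
      have ht' := (hF t).1 ht
      exact (hWm t.1).2 ⟨ht'.n1, ht'.n2, ht'.k1, ht'.k2, ht'.tt.co, ht'.cn, ht'.ck⟩
  -- main terms
  have hmain : ∑ p ∈ W, ((b 2 - a 2) * sM N Y Y₂ / e) * ((b 3 - a 3) * sG N Y Y₂ / e) *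
      ((b 4 - a 4) * Y) / ((p.1 : ℝ) ^ 3 * p.2 * (e1 e (c 0).natAbs : ℝ)) =
      Y * Y₂ * (B * (sN N Y Y₂ ^ 2 * ∑ p ∈ W, 1 / ((p.1 : ℝ) ^ 3 * p.2))) := by
    have h1 : ∀ p : ℕ × ℕ, ((b 2 - a 2) * sM N Y Y₂ / e) * ((b 3 - a 3) * sG N Y Y₂ / e) *
      ((b 4 - a 4) * Y) / ((p.1 : ℝ) ^ 3 * p.2 * (e1 e (c 0).natAbs : ℝ)) =
      Y * Y₂ * (B * (sN N Y Y₂ ^ 2)) * (1 / ((p.1 : ℝ) ^ 3 * p.2)) := by
      intro p
      have h2 : ((b 2 - a 2) * sM N Y Y₂ / e) * ((b 3 - a 3) * sG N Y Y₂ / e) *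
          ((b 4 - a 4) * Y) = (b 2 - a 2) * (b 3 - a 3) * (b 4 - a 4) * Y *
            (sM N Y Y₂ * sG N Y Y₂) / (e : ℝ) ^ 2 := by
        rw [div_mul_div_comm, div_mul_eq_mul_div]
        congr 1 <;> ring
      rw [h2, QEC_sMG N Y Y₂ hN0 hYpos hY₂pos, hB]
      exact QEC_alg2 _ _ _ _ _ _ _
    rw [Finset.sum_congr rfl fun p _ => h1 p, ← Finset.mul_sum]
    ring
  rw [QEC_alg ((((a 0) ^ 2)⁻¹ - ((b 0) ^ 2)⁻¹) / 2) (Real.log (b 1 / a 1)) (6 / Real.pi ^ 2)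
    (b 2 - a 2) (b 3 - a 3) (b 4 - a 4), ← hB]
  set m1 : ℝ := (((a 0) ^ 2)⁻¹ - ((b 0) ^ 2)⁻¹) / 2 * Real.log (b 1 / a 1) * (6 / Real.pi ^ 2) /
    ((∏ p ∈ e.primeFactors, (1 - 1 / (p : ℝ) ^ 2)) * (e : ℝ) ^ 2) with hm1
  set s1 : ℝ := sN N Y Y₂ ^ 2 * ∑ p ∈ W, 1 / ((p.1 : ℝ) ^ 3 * p.2) with hs1def
  have hYY : 0 < Y * Y₂ := mul_pos hYpos hY₂pos
  have e1 : |(F.card : ℝ) - Y * Y₂ * (B * s1)| ≤
      (ε / 2 + C * (Y * Y₂ / N) ^ (3 / 2 : ℝ)) * (Y * Y₂) := by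
    rw [hcard, ← hmain, ← Finset.sum_sub_distrib]
    exact (Finset.abs_sum_le_sum_abs _ _).trans hE
  have e2 : |Y * Y₂ * (B * s1) - Y * Y₂ * (B * m1)| ≤ ε / 2 * (Y * Y₂) := by
    have h3 : Y * Y₂ * (B * s1) - Y * Y₂ * (B * m1) = Y * Y₂ * B * (s1 - m1) := by ring
    rw [h3, abs_mul, abs_of_nonneg (mul_nonneg hYY.le hB0)]
    have h4 : B * |s1 - m1| ≤ ε / 2 := by
      calc B * |s1 - m1| ≤ B * ε' := mul_le_mul_of_nonneg_left hC hB0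
        _ ≤ (B + 1) * ε' := by nlinarith
        _ = ε / 2 := by
            rw [hε'def]
            field_simp
    calc Y * Y₂ * B * |s1 - m1| = Y * Y₂ * (B * |s1 - m1|) := by ring
      _ ≤ Y * Y₂ * (ε / 2) := mul_le_mul_of_nonneg_left h4 hYY.le
      _ = ε / 2 * (Y * Y₂) := by ring
  calc |(F.card : ℝ) - Y * Y₂ * (B * m1)|
      = |((F.card : ℝ) - Y * Y₂ * (B * s1)) + (Y * Y₂ * (B * s1) - Y * Y₂ * (B * m1))| := by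
        congr 1
        ring
    _ ≤ |(F.card : ℝ) - Y * Y₂ * (B * s1)| + |Y * Y₂ * (B * s1) - Y * Y₂ * (B * m1)| :=
        abs_add_le _ _
    _ ≤ (ε + C * (Y * Y₂ / N) ^ (3 / 2 : ℝ)) * (Y * Y₂) := by linarith

end Pool.Agent.T7
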